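import Pool.Agent.Helper76.SGA.Goals
import Pool.Agent.Helper61.HD.GNM

/-!
# SGA packet GEL (helper3): Gelfond's inequality for heights, many factors
-/

set_option autoImplicit false

open MvPolynomial

namespace Pool.Agent.Helper3.SGA

open Pool.Agent.Helper92.Ru Pool.Agent.Helper42.SG Pool.Agent.Helper76.SGA
open Pool.Agent.Helper80.HD Pool.Agent.Helper61.HD
open NumberField Height Height.AdmissibleAbsValues

section

variable {k : Type} [Field k] [NumberField k] {m : ℕ}

omit [NumberField k] in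
lemma coeffs_ne_zero {f : MvPolynomial (Fin m) k} (hf : f ≠ 0) :
    (fun e : f.support => coeff e.1 f) ≠ 0 := by
  obtain ⟨e, he⟩ := ne_zero_iff.mp hf
  intro h
  exact he (congrFun h ⟨e, mem_support_iff.mpr he⟩)

lemma PH_eq {f : MvPolynomial (Fin m) k} (hf : f ≠ 0) :
    PH f = (∏ v : InfinitePlace k, gn v.val f ^ v.mult) *
      ∏ᶠ v : (nonarchAbsVal : Set (AbsoluteValue k ℝ)), gn v.val f := by
  unfold PH
  rw [Height.mulHeight_eq (coeffs_ne_zero hf), NumberField.prod_archAbsVal_eq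
    (fun v : AbsoluteValue k ℝ => ⨆ i : f.support, v (coeff i.1 f))]
  rfl

lemma gn_fin {f : MvPolynomial (Fin m) k} (hf : f ≠ 0) :
    (Function.mulSupport fun v : (nonarchAbsVal : Set (AbsoluteValue k ℝ)) => gn v.val f).Finite := by
  classical
  have h1 : (⋃ e ∈ f.support, Function.mulSupport
      (fun v : (nonarchAbsVal : Set (AbsoluteValue k ℝ)) => v.val (coeff e f))).Finite := by
    refine Set.Finite.biUnion f.support.finite_toSet fun e he => ?_
    exact hasFiniteMulSupport (mem_support_iff.mp he)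
  refine h1.subset fun v hv => ?_
  obtain ⟨e, he, h2⟩ := exists_gn v.val hf
  rw [Set.mem_iUnion₂]
  refine ⟨e, he, ?_⟩
  rw [Function.mem_mulSupport] at hv ⊢
  rwa [h2] at hv

omit [NumberField k] in
lemma degreeOf_map_eq (φ : k →+* ℂ) (f : MvPolynomial (Fin m) k) (h : Fin m) :
    (map φ f).degreeOf h = f.degreeOf h := by
  rw [degreeOf_eq_sup, degreeOf_eq_sup, support_map_of_injective f φ.injective]

omit [NumberField k] in
lemma arch_le (hA : GELARCH) (v : InfinitePlace k) {ι : Type} (s : Finset ι)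
    (f : ι → MvPolynomial (Fin m) k) (hf : ∀ i ∈ s, f i ≠ 0) :
    ∏ i ∈ s, gn v.val (f i) ≤
      4 ^ (∑ h, (∏ i ∈ s, f i).degreeOf h) * gn v.val (∏ i ∈ s, f i) := by
  classical
  have hch : ∀ i : ι, ∃ e : Fin m →₀ ℕ, i ∈ s → gn v.val (f i) = v.val (coeff e (f i)) := by
    intro i
    by_cases hi : i ∈ s
    · obtain ⟨e, _, he⟩ := exists_gn v.val (hf i hi)
      exact ⟨e, fun _ => he⟩
    · exact ⟨0, fun h => absurd h hi⟩
  choose e he using hch
  have hinj : Function.Injective (map v.embedding : MvPolynomial (Fin m) k → _) :=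
    map_injective _ v.embedding.injective
  obtain ⟨μ, hμ⟩ := hA m ι s (fun i => map v.embedding (f i)) e (fun i hi h0 => by
    apply hf i hi
    apply hinj
    rw [h0, map_zero])
  have hval : ∀ x : k, ‖v.embedding x‖ = v.val x := fun x => InfinitePlace.norm_embedding_eq v x
  have hprod : (∏ i ∈ s, map v.embedding (f i)) = map v.embedding (∏ i ∈ s, f i) := by
    rw [map_prod]
  rw [hprod] at hμ
  have h1 : ∏ i ∈ s, gn v.val (f i) = ∏ i ∈ s, ‖coeff (e i) (map v.embedding (f i))‖ := by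
    refine Finset.prod_congr rfl fun i hi => ?_
    rw [he i hi, coeff_map, hval]
  rw [h1]
  refine hμ.trans ?_
  rw [coeff_map, hval]
  simp only [degreeOf_map_eq]
  gcongr
  exact le_gn _ _ _

lemma PH_pos {f : MvPolynomial (Fin m) k} : 0 < PH f := by
  unfold PH
  exact Height.mulHeight_pos _

lemma prod_PH_le (hA : GELARCH) {ι : Type} (s : Finset ι) (f : ι → MvPolynomial (Fin m) k)
    (hf : ∀ i ∈ s, f i ≠ 0) :
    ∏ i ∈ s, PH (f i) ≤ (4 ^ (∑ h, (∏ i ∈ s, f i).degreeOf h)) ^ (Module.finrank ℚ k) *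
      PH (∏ i ∈ s, f i) := by
  classical
  have hF : (∏ i ∈ s, f i) ≠ 0 := Finset.prod_ne_zero_iff.mpr hf
  rw [Finset.prod_congr rfl fun i hi => PH_eq (hf i hi), Finset.prod_mul_distrib, PH_eq hF]
  have h1 : ∏ i ∈ s, ∏ᶠ v : (nonarchAbsVal : Set (AbsoluteValue k ℝ)), gn v.val (f i) =
      ∏ᶠ v : (nonarchAbsVal : Set (AbsoluteValue k ℝ)), gn v.val (∏ i ∈ s, f i) := by
    rw [← finprod_prod_comm s (fun (v : (nonarchAbsVal : Set (AbsoluteValue k ℝ))) i =>
      gn v.val (f i)) (fun i hi => gn_fin (hf i hi))]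
    refine finprod_congr fun v => ?_
    rw [gn_prod v.val (isNonarchimedean v.val v.2)]
  rw [h1, ← mul_assoc]
  have h2 : 0 ≤ ∏ᶠ v : (nonarchAbsVal : Set (AbsoluteValue k ℝ)), gn v.val (∏ i ∈ s, f i) :=
    finprod_nonneg fun v => gn_nonneg _ _
  refine mul_le_mul_of_nonneg_right ?_ h2
  rw [Finset.prod_comm]
  rw [← InfinitePlace.sum_mult_eq, ← Finset.prod_pow_eq_pow_sum, ← Finset.prod_mul_distrib]
  refine Finset.prod_le_prod (fun v _ => Finset.prod_nonneg fun i _ =>
    pow_nonneg (gn_nonneg _ _) _) fun v _ => ?_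
  rw [Finset.prod_pow, ← mul_pow]
  exact pow_le_pow_left₀ (Finset.prod_nonneg fun i _ => gn_nonneg _ _) (arch_le hA v s f hf) _

end

theorem gel (h1 : GELARCH) : GEL := by
  intro k _ _ m
  refine ⟨Module.finrank ℚ k * Real.log 4, by positivity, ?_⟩
  intro ι s f hf
  have h2 := prod_PH_le h1 s f hf
  have hpos : 0 < ∏ i ∈ s, PH (f i) := Finset.prod_pos fun i _ => PH_pos
  have h3 := Real.log_le_log hpos h2
  rw [Real.log_prod (fun i _ => PH_pos.ne'), Real.log_mul (by positivity) PH_pos.ne',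
    Real.log_pow, Real.log_pow] at h3
  refine h3.trans (le_of_eq ?_)
  push_cast
  ring

end Pool.Agent.Helper3.SGA
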